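import Pool.Agent.Helper38.FY.Goals

/-! # The automorphisms of `ℂ_p` act on the roots of unity of order prime to `p` as powers of the
Frobenius -/

set_option autoImplicit false

namespace Pool.Agent.Helper36.FY

open Polynomial Pool.Agent.Helper22.RP Pool.Agent.Helper51.RP

section fin

variable {p : ℕ} [hp : Fact p.Prime]

/-- If an irreducible polynomial `P` over the field with `p` elements divides `P(X^t)`, then it
divides `X^t - X^(p^r)` for some `r`. -/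
theorem dvd_frob {P : (ZMod p)[X]} (hP : Irreducible P) (t : ℕ) (h : P ∣ P.comp (X ^ t)) :
    ∃ r : ℕ, P ∣ X ^ t - X ^ p ^ r := by
  have hF : Fact (Irreducible P) := ⟨hP⟩
  have hfd : Module.Finite (ZMod p) (AdjoinRoot P) :=
    (AdjoinRoot.powerBasis hP.ne_zero).finite
  have hfin : Finite (AdjoinRoot P) := Module.finite_of_finite (ZMod p)
  have h1 : aeval (AdjoinRoot.root P ^ t) P = 0 := by
    have h2 : AdjoinRoot.mk P (P.comp (X ^ t)) = 0 := AdjoinRoot.mk_eq_zero.2 h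
    rw [← AdjoinRoot.aeval_eq, aeval_comp, map_pow, aeval_X] at h2
    exact h2
  obtain ⟨r, hr⟩ := (FiniteField.bijective_frobeniusAlgHom_pow (ZMod p) (AdjoinRoot P)).2
    (AdjoinRoot.liftAlgHom P (Algebra.ofId (ZMod p) (AdjoinRoot P)) (AdjoinRoot.root P ^ t) h1)
  refine ⟨r, ?_⟩
  have h3 := DFunLike.congr_fun hr (AdjoinRoot.root P)
  simp only [AlgHom.coe_pow, FiniteField.coe_frobeniusAlgHom, pow_iterate,
    AdjoinRoot.liftAlgHom_root, ZMod.card] at h3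
  rw [← AdjoinRoot.mk_eq_zero, map_sub, map_pow, map_pow, AdjoinRoot.mk_X, h3, sub_self]

end fin

section data

variable {p : ℕ} [hp : Fact p.Prime] {k : Type} [NormedField k] [NormedAlgebra ℚ_[p] k]
  [IsUltrametricDist k] {m : ℕ} {ζ : k} {Φ : ℤ_[p][X]} {P : (ZMod p)[X]}

theorem root_norm (D : PhiData p m ζ Φ P) : ‖ζ‖ = 1 := by
  have h3 : ‖ζ‖ ^ m = 1 := by rw [← norm_pow, D.prim.pow_eq_one, norm_one]
  have hm0 : m ≠ 0 := by have := D.one_lt; omega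
  exact (pow_eq_one_iff_of_nonneg (norm_nonneg _) hm0).1 h3

theorem k1 (D : PhiData p m ζ Φ P) (F : ℤ_[p][X]) (h : P ∣ F.map PadicInt.toZMod) :
    ‖eval₂ (io p k) ζ F‖ < 1 := by
  obtain ⟨G, hG⟩ := h
  obtain ⟨G', rfl⟩ := Polynomial.map_surjective _ toZMod_surj G
  have hroot : eval₂ (io p k) ζ Φ = 0 := D.root
  have h1 : (F - Φ * G').map (PadicInt.toZMod : ℤ_[p] →+* ZMod p) = 0 := by
    rw [Polynomial.map_sub, Polynomial.map_mul, hG, D.map, sub_self]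
  have h2 := eval_lt (k := k) (F - Φ * G') (root_norm D).le h1
  rwa [eval₂_sub, eval₂_mul, hroot, zero_mul, sub_zero] at h2

theorem k2 (D : PhiData p m ζ Φ P) (F : ℤ_[p][X]) (h : ‖eval₂ (io p k) ζ F‖ < 1) :
    P ∣ F.map PadicInt.toZMod := by
  by_contra hd
  have hc : IsCoprime P (F.map (PadicInt.toZMod : ℤ_[p] →+* ZMod p)) :=
    (D.irr.coprime_iff_not_dvd).2 hd
  obtain ⟨A, B, hAB⟩ := hc
  obtain ⟨A', rfl⟩ := Polynomial.map_surjective _ toZMod_surj A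
  obtain ⟨B', rfl⟩ := Polynomial.map_surjective _ toZMod_surj B
  have hroot : eval₂ (io p k) ζ Φ = 0 := D.root
  have h1 : (A' * Φ + B' * F - 1).map (PadicInt.toZMod : ℤ_[p] →+* ZMod p) = 0 := by
    rw [Polynomial.map_sub, Polynomial.map_add, Polynomial.map_mul, Polynomial.map_mul,
      Polynomial.map_one, ← D.map, hAB, sub_self]
  have h2 := eval_lt (k := k) _ (root_norm D).le h1
  rw [eval₂_sub, eval₂_add, eval₂_mul, eval₂_mul, hroot, mul_zero, zero_add, eval₂_one] at h2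
  have h3 : ‖eval₂ (io p k) ζ B'‖ ≤ 1 :=
    eval_le B' (root_norm D).le 1 zero_le_one fun n => PadicInt.norm_le_one _
  have h4 : ‖eval₂ (io p k) ζ B' * eval₂ (io p k) ζ F‖ < 1 := by
    rw [norm_mul]
    exact mul_lt_one_of_nonneg_of_lt_one_right h3 (norm_nonneg _) h
  have h5 : (1 : k) = eval₂ (io p k) ζ B' * eval₂ (io p k) ζ F +
      -(eval₂ (io p k) ζ B' * eval₂ (io p k) ζ F - 1) := by ring
  have h6 : ‖(1 : k)‖ < 1 := by
    rw [h5]
    refine (IsUltrametricDist.norm_add_le_max _ _).trans_lt (max_lt h4 ?_)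
    rwa [norm_neg]
  rw [norm_one] at h6
  exact lt_irrefl _ h6

/-- If `ζ^t` is also a root of `Φ`, it is a `p^r`-th power of `ζ`. -/
theorem conj_pow (D : PhiData p m ζ Φ P) (t : ℕ) (h : eval₂ (io p k) (ζ ^ t) Φ = 0) :
    ∃ r : ℕ, ζ ^ t = ζ ^ p ^ r := by
  have h1 : eval₂ (io p k) ζ (Φ.comp (X ^ t)) = 0 := by
    rw [eval₂_comp, eval₂_pow, eval₂_X, h]
  have h2 : P ∣ P.comp (X ^ t) := by
    have h3 := k2 D (Φ.comp (X ^ t)) (by rw [h1, norm_zero]; exact zero_lt_one)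
    rwa [Polynomial.map_comp, ← D.map, Polynomial.map_pow, map_X] at h3
  obtain ⟨r, hr⟩ := dvd_frob D.irr t h2
  refine ⟨r, ?_⟩
  have h4 := k1 D (X ^ t - X ^ p ^ r) (by simpa using hr)
  rw [eval₂_sub, eval₂_pow, eval₂_pow, eval₂_X] at h4
  have hn : ‖ζ‖ = 1 := root_norm D
  have h0 : ζ ^ p ^ r ≠ 0 := by
    intro hz
    have : ‖ζ ^ p ^ r‖ = 1 := by rw [norm_pow, hn, one_pow]
    rw [hz, norm_zero] at this
    exact zero_ne_one this
  have hz : ζ ^ m = 1 := D.prim.pow_eq_one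
  by_contra hne
  have h5 : (ζ ^ t / ζ ^ p ^ r) ^ m = 1 := by
    rw [div_pow, ← pow_mul, ← pow_mul, mul_comm t, mul_comm _ m, pow_mul, pow_mul, hz, one_pow,
      one_pow, div_one]
  have h6 : ζ ^ t / ζ ^ p ^ r ≠ 1 := by
    intro h7
    exact hne ((div_eq_one_iff_eq h0).1 h7)
  refine one_sub_norm (p := p) D.copm h5 h6 ?_
  have h8 : ζ ^ t / ζ ^ p ^ r - 1 = (ζ ^ t - ζ ^ p ^ r) / ζ ^ p ^ r := by
    rw [sub_div, div_self h0]
  rw [h8, norm_div, norm_pow ζ (p ^ r), hn, one_pow, div_one]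
  exact h4

end data

/-- The part of order prime to `p`. -/
theorem first (p : ℕ) [Fact p.Prime] (m : ℕ) (h0 : 0 < m) (hm : m.Coprime p)
    (σ : ℂ_[p] ≃ₐ[ℚ_[p]] ℂ_[p]) : ∃ r : ℕ, ∀ z : ℂ_[p], z ^ m = 1 → σ z = z ^ p ^ r := by
  have hne : NeZero m := ⟨h0.ne'⟩
  rcases Nat.lt_or_ge 1 m with h1 | h1
  · have hnz : NeZero (m : ℂ_[p]) := ⟨by exact_mod_cast h0.ne'⟩
    obtain ⟨ζ, hζ⟩ := HasEnoughRootsOfUnity.exists_primitiveRoot ℂ_[p] m
    obtain ⟨Φ, P, D⟩ := s_phi p ℂ_[p] m ζ hm h1 hζ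
    have h2 : (σ ζ) ^ m = 1 := by rw [← map_pow, hζ.pow_eq_one, map_one]
    obtain ⟨t, -, ht⟩ := hζ.eq_pow_of_pow_eq_one h2
    have h3 : eval₂ (io p ℂ_[p]) (ζ ^ t) Φ = 0 := by
      have h4 : eval₂ (io p ℂ_[p]) ζ Φ = 0 := D.root
      have h5 := congrArg (σ : ℂ_[p] →+* ℂ_[p]) h4
      rw [hom_eval₂, map_zero] at h5
      have h6 : ((σ : ℂ_[p] ≃+* ℂ_[p]) : ℂ_[p] →+* ℂ_[p]).comp (io p ℂ_[p]) = io p ℂ_[p] := by
        ext c
        exact σ.commutes _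
      rw [ht]
      have h7 : ((σ : ℂ_[p] ≃+* ℂ_[p]) : ℂ_[p] →+* ℂ_[p]) ζ = σ ζ := rfl
      rw [← h7]
      rw [← h6]
      exact h5
    obtain ⟨r, hr⟩ := conj_pow D t h3
    refine ⟨r, fun z hz => ?_⟩
    obtain ⟨i, -, rfl⟩ := hζ.eq_pow_of_pow_eq_one hz
    rw [map_pow, ← ht, hr, ← pow_mul, ← pow_mul, mul_comm]
  · have h2 : m = 1 := by omega
    subst h2
    refine ⟨0, fun z hz => ?_⟩
    rw [pow_one] at hz
    rw [hz, map_one, one_pow]

/-- The part of `p`-power order. -/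
theorem second (p : ℕ) [Fact p.Prime] (l : ℕ) (σ : ℂ_[p] ≃ₐ[ℚ_[p]] ℂ_[p]) :
    ∃ s : ℕ, ¬ p ∣ s ∧ ∀ z : ℂ_[p], z ^ p ^ l = 1 → σ z = z ^ s := by
  have hp : p.Prime := Fact.out
  rcases Nat.eq_zero_or_pos l with h0 | h0
  · subst h0
    refine ⟨1, hp.one_lt.not_ge ∘ fun h => Nat.le_of_dvd one_pos h, fun z hz => ?_⟩
    rw [pow_zero, pow_one] at hz
    rw [hz, map_one, one_pow]
  · have hne : NeZero (p ^ l) := ⟨(pow_pos hp.pos l).ne'⟩
    have hnz : NeZero ((p ^ l : ℕ) : ℂ_[p]) := ⟨by exact_mod_cast (pow_pos hp.pos l).ne'⟩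
    obtain ⟨β, hβ⟩ := HasEnoughRootsOfUnity.exists_primitiveRoot ℂ_[p] (p ^ l)
    have h1 : IsPrimitiveRoot (σ β) (p ^ l) := hβ.map_of_injective σ.injective
    obtain ⟨s, -, hs⟩ := hβ.eq_pow_of_pow_eq_one h1.pow_eq_one
    refine ⟨s, fun hd => ?_, fun z hz => ?_⟩
    · rw [← hs, hβ.pow_iff_coprime (pow_pos hp.pos l)] at h1
      have h2 : Nat.Coprime p (p ^ l) := Nat.Coprime.coprime_dvd_left hd h1
      have h3 : p ∣ 1 := by
        rw [← h2.gcd_eq_one]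
        exact Nat.dvd_gcd dvd_rfl (dvd_pow_self p h0.ne')
      exact hp.one_lt.ne' (Nat.dvd_one.1 h3)
    · obtain ⟨i, -, rfl⟩ := hβ.eq_pow_of_pow_eq_one hz
      rw [map_pow, ← hs, ← pow_mul, ← pow_mul, mul_comm]

/-- **N_CNJ** -/
theorem n_cnj : Pool.Agent.Helper38.FY.N_CNJ := by
  intro p _ m l h0 hm σ
  obtain ⟨r, hr⟩ := first p m h0 hm σ
  obtain ⟨s, hs, hs'⟩ := second p l σ
  exact ⟨r, s, hs, hr, hs'⟩

end Pool.Agent.Helper36.FY
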